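import Pool.Agent.Helper93.WC.St
import Pool.Agent.Helper62.Weber.Count

set_option autoImplicit false

/-! Module CN1 of project WC (helper93), MP_e74dc5_nt. -/

open Polynomial Helper62.Weber Pool.Agent.Helper93.WC

namespace Pool.Agent.Helper37.WC

theorem cCN1 : CN1 := by
  intro n t M hn ht S hS
  have hr1 : 1 ≤ min n t := le_min hn (by omega)
  have hrn : min n t ≤ n := min_le_left _ _
  have h1 : ∏ l ∈ S, l ≤ (10 * 2 ^ (min n t - 1)) ^ 2 ^ (min n t - 1) :=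
    prod_bound hn hr1 hrn S (fun l hl => (hS l hl).1) (fun l hl =>
      nontriv hn ht (hS l hl).1 (hS l hl).2.1 (hS l hl).2.2.1 (hS l hl).2.2.2.1)
  have h2 : (2 ^ M) ^ S.card ≤ ∏ l ∈ S, l :=
    Finset.pow_card_le_prod _ _ _ (fun l hl => (hS l hl).2.2.2.2)
  have h3 : (10 * 2 ^ (min n t - 1)) ^ 2 ^ (min n t - 1) ≤
      2 ^ ((min n t + 3) * 2 ^ (min n t - 1)) := by
    have h4 : 10 * 2 ^ (min n t - 1) ≤ 2 ^ (min n t + 3) := by
      calc 10 * 2 ^ (min n t - 1) ≤ 2 ^ 4 * 2 ^ (min n t - 1) :=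
            Nat.mul_le_mul_right _ (by norm_num)
        _ = 2 ^ (min n t + 3) := by rw [← pow_add]; congr 1; omega
    calc (10 * 2 ^ (min n t - 1)) ^ 2 ^ (min n t - 1)
        ≤ (2 ^ (min n t + 3)) ^ 2 ^ (min n t - 1) := Nat.pow_le_pow_left h4 _
      _ = 2 ^ ((min n t + 3) * 2 ^ (min n t - 1)) := (pow_mul _ _ _).symm
  have h5 : 2 ^ (M * S.card) ≤ 2 ^ ((min n t + 3) * 2 ^ (min n t - 1)) := by
    rw [pow_mul]
    exact h2.trans (h1.trans h3)
  exact (Nat.pow_le_pow_iff_right (by norm_num)).1 h5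

end Pool.Agent.Helper37.WC
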